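import Pool.Agent.helper32.EXT.Spec7

set_option autoImplicit false

/-! Row T7 of project EXT, block H (MP_561ff4_al). -/

open Finset

namespace Pool.Agent.EXT

open Pool.Agent.EXC

theorem T7 (hFT7 : FT7_stmt) (hZ7A : Z7A_stmt) (hZ7B : Z7B_stmt) : T7_stmt := by
  intro K _ _ τ hτ x hx hx1
  have h := hFT7 K τ hτ 7 3 (by norm_num) (fun a b m y hm hT hY => by
    rcases hm with rfl | hm
    · exact hZ7B K τ hτ a b y hT hY
    · exact (hZ7A K τ hτ a b m y hm hT hY).1) x hx hx1
  exact h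

end Pool.Agent.EXT
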