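import Pool.Agent.helper53.EXT.SpecM

/-!
# ftm:NMD, soundness of the derivations (helper63)
-/

set_option autoImplicit false

open Finset

namespace Pool.Agent.EXT

open Pool.Agent.EXC

theorem NMD_grp {G : Type} [Group G] (x y p q : G) (h1 : Commute p y) (h2 : Commute p q) (h3 : Commute x q) :
    (x * p) * (y * q) * (x * p)⁻¹ * (y * q)⁻¹ = x * y * x⁻¹ * y⁻¹ := by
  have e1 : p * (y * q) * p⁻¹ = y * q := by
    rw [(h1.mul_right h2).eq, mul_assoc, mul_inv_cancel, mul_one]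
  have e2 : q * x⁻¹ = x⁻¹ * q := (h3.inv_left).eq.symm
  calc (x * p) * (y * q) * (x * p)⁻¹ * (y * q)⁻¹ = x * (p * (y * q) * p⁻¹) * x⁻¹ * q⁻¹ * y⁻¹ := by
        rw [mul_inv_rev, mul_inv_rev]
        group
    _ = x * y * (q * x⁻¹) * q⁻¹ * y⁻¹ := by
        rw [e1]
        group
    _ = x * y * x⁻¹ * y⁻¹ := by
        rw [e2]
        group

theorem NMD_cons {K : Type} [Field K] (t : K) (p : (Fin 6 → ℤ) × Bool) (P : List ((Fin 6 → ℤ) × Bool)) :
    prR t (p :: P) = Rt p.1 (if p.2 then (1 : K) else t) * prR t P := by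
  unfold prR
  rw [List.map_cons, List.prod_cons]

theorem NMD_nil {K : Type} [Field K] (t : K) : prR t [] = (1 : Lm C6 K ≃ₗ[K] Lm C6 K) := by
  unfold prR
  rw [List.map_nil, List.prod_nil]

/-- an element which commutes with all factors commutes with the product -/
theorem NMD_com {K : Type} [Field K] (t : K) (x : Lm C6 K ≃ₗ[K] Lm C6 K) (P : List ((Fin 6 → ℤ) × Bool))
    (h : ∀ p ∈ P, ∀ s : K, Commute x (Rt p.1 s)) : Commute x (prR t P) := by
  induction P with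
  | nil =>
    rw [NMD_nil]
    exact Commute.one_right x
  | cons p P ih =>
    rw [NMD_cons]
    exact (h p List.mem_cons_self _).mul_right (ih fun q hq => h q (List.mem_cons_of_mem p hq))

theorem NMD_root {u v : Fin 6 → ℤ} (hu : ip C6 u u = 2) (hv : ip C6 v v = 2) (h : ip C6 u v = -1) :
    ip C6 (u + v) (u + v) = 2 := by
  have h1 : ip C6 v u = -1 := by
    rw [ip_comm]
    exact h
  rw [ip_add_left, ip_add_right, ip_add_right, hu, hv, h, h1]
  norm_num

theorem NMD (hRTF : RTF_stmt) (hNMR : NMR_stmt) (hNMA : NMA_stmt) (hNMB : NMB_stmt) : NMD_stmt := by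
  intro K _ h2 PL t H hPL hPH l hl
  obtain ⟨a1, -, -, a4⟩ := hNMA K h2
  obtain ⟨b1, b2, b3⟩ := hNMB K h2
  have hcm : ∀ α β, ip C6 α α = 2 → ip C6 β β = 2 → cm α β → ∀ s t : K, Commute (Rt α s) (Rt β t) :=
    fun α β hα hβ h s t => a4 α β hα hβ h s t
  -- the commutator of two products
  have key : ∀ (u v : Fin 6 → ℤ) (P Q : List ((Fin 6 → ℤ) × Bool)), ip C6 u u = 2 → ip C6 v v = 2 →
      (∀ p ∈ P, ip C6 p.1 p.1 = 2) → (∀ q ∈ Q, ip C6 q.1 q.1 = 2) →
      (∀ p ∈ P, cm p.1 v ∧ ∀ q ∈ Q, cm p.1 q.1) → (∀ q ∈ Q, cm u q.1) →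
      prR t ((u, true) :: P) ∈ H → prR t ((v, true) :: Q) ∈ H →
      Rt u (1 : K) * Rt v 1 * (Rt u 1)⁻¹ * (Rt v 1)⁻¹ ∈ H := by
    intro u v P Q hu hv hP hQ c1 c2 m1 m2
    rw [NMD_cons] at m1 m2
    have m1' : Rt u (1 : K) * prR t P ∈ H := m1
    have m2' : Rt v (1 : K) * prR t Q ∈ H := m2
    rw [← NMD_grp (Rt u (1 : K)) (Rt v 1) (prR t P) (prR t Q)]
    · exact H.mul_mem (H.mul_mem (H.mul_mem m1' m2') (H.inv_mem m1')) (H.inv_mem m2')
    · exact (NMD_com t _ P fun p hp s => (hcm p.1 v (hP p hp) hv (c1 p hp).1 s 1).symm).symm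
    · exact (NMD_com t _ P fun p hp s => (NMD_com t _ Q fun q hq s' =>
        hcm p.1 q.1 (hP p hp) (hQ q hq) ((c1 p hp).2 q hq) s s').symm).symm
    · exact NMD_com t _ Q fun q hq s => hcm u q.1 hu (hQ q hq) (c2 q hq) 1 s
  induction hl with
  | ax l hl => exact ⟨hPL l hl, hPH l hl⟩
  | swp p q _ hc ih =>
    obtain ⟨i1, i2⟩ := ih
    have hp := i1 p (by simp)
    have hq := i1 q (by simp)
    refine ⟨?_, ?_⟩
    · intro r hr
      rcases List.mem_cons.mp hr with rfl | hr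
      · exact hq
      · rcases List.mem_cons.mp hr with rfl | hr
        · exact hp
        · exact absurd hr List.not_mem_nil
    · rw [NMD_cons, NMD_cons, NMD_nil, mul_one] at i2 ⊢
      rw [← (hcm p.1 q.1 hp hq hc _ _).eq]
      exact i2
  | flp u u' b P _ hu' ih =>
    obtain ⟨i1, i2⟩ := ih
    have hu : ip C6 u u = 2 := i1 (u, b) (by simp)
    subst hu'
    refine ⟨?_, ?_⟩
    · intro r hr
      rcases List.mem_cons.mp hr with rfl | hr
      · show ip C6 (pv u) (pv u) = 2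
        rw [hRTF.1, hu]
      · exact i1 r (List.mem_cons_of_mem _ hr)
    · rw [NMD_cons] at i2 ⊢
      have e := (a1 u hu).2.2.1 (if b then (1 : K) else t)
      show Rt (pv u) (if b then (1 : K) else t) * prR t P ∈ H
      rw [e]
      exact i2
  | spl p v _ _ ih1 ih2 =>
    obtain ⟨i1, i2⟩ := ih1
    obtain ⟨-, j2⟩ := ih2
    refine ⟨?_, ?_⟩
    · intro r hr
      rw [List.mem_singleton] at hr
      subst hr
      exact i1 r (by simp)
    · have e : prR t [p] = prR t [p, (v, true)] * (prR t [(v, true)])⁻¹ := by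
        rw [NMD_cons, NMD_cons, NMD_cons, NMD_nil]
        group
      rw [e]
      exact H.mul_mem i2 (H.inv_mem j2)
  | co1 u v w P Q _ _ hc ih1 ih2 =>
    obtain ⟨i1, i2⟩ := ih1
    obtain ⟨j1, j2⟩ := ih2
    obtain ⟨c0, c1, rfl, c3, c4⟩ := hc
    have hu : ip C6 u u = 2 := i1 (u, true) (by simp)
    have hv : ip C6 v v = 2 := j1 (v, true) (by simp)
    have hm := key u v P Q hu hv (fun p hp => i1 p (List.mem_cons_of_mem _ hp)) (fun q hq => j1 q (List.mem_cons_of_mem _ hq)) c3 c4 i2 j2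
    have e : Rt u (1 : K) * Rt v 1 * (Rt u 1)⁻¹ * (Rt v 1)⁻¹ = Rt (u + v) (1 * 1) := by
      rcases c0 with ⟨p1, p2⟩ | ⟨p1, p2, p3⟩
      · exact b1 u v ⟨hu, p1⟩ ⟨hv, p2⟩ c1 1 1
      · exact b2 u v ⟨hu, p1⟩ ⟨hv, p2⟩ c1 p3 1 1
    rw [e, mul_one] at hm
    refine ⟨?_, ?_⟩
    · intro r hr
      rw [List.mem_singleton] at hr
      subst hr
      exact NMD_root hu hv c1
    · rw [NMD_cons, NMD_nil, mul_one]
      exact hm
  | co2 u v w w' P Q _ _ hc ih1 ih2 =>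
    obtain ⟨i1, i2⟩ := ih1
    obtain ⟨j1, j2⟩ := ih2
    obtain ⟨⟨p1, p2⟩, c1, rfl, rfl, c3, c4⟩ := hc
    have hu : ip C6 u u = 2 := i1 (u, true) (by simp)
    have hv : ip C6 v v = 2 := j1 (v, true) (by simp)
    have hm := key u v P Q hu hv (fun p hp => i1 p (List.mem_cons_of_mem _ hp)) (fun q hq => j1 q (List.mem_cons_of_mem _ hq)) c3 c4 i2 j2
    have e := b3 u v ⟨hu, p1⟩ ⟨hv, p2⟩ c1 1 1
    rw [e, one_pow, mul_one] at hm
    obtain ⟨r1, r2⟩ := hNMR.2.2.2.2.1 u v ⟨hu, p1⟩ ⟨hv, p2⟩ c1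
    refine ⟨?_, ?_⟩
    · intro r hr
      rcases List.mem_cons.mp hr with rfl | hr
      · exact r1.1
      · rw [List.mem_singleton] at hr
        subst hr
        exact r2.1
    · rw [NMD_cons, NMD_cons, NMD_nil, mul_one]
      exact hm

end Pool.Agent.EXT
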