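import Pool.Agent.helper53.EXT.SpecB

set_option autoImplicit false

/-! Row B0N of project EXT, block B (MP_561ff4_al). -/

open Finset

namespace Pool.Agent.EXT

open Pool.Agent.EXC

theorem B0N_two {K : Type} [Field K] (φ : ZMod 2 →+* K) : (1 : K) + 1 = 0 := by
  have h : φ (1 + 1) = φ 0 := congrArg φ (by decide)
  rw [map_add, map_one, map_zero] at h
  exact h

theorem B0N_sn {K : Type} [Field K] (φ : ZMod 2 →+* K) (v : Fin 6 → ℤ) : ((sn v : ℤ) : K) = 1 := by
  have h := B0N_two φ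
  unfold sn
  split_ifs
  · simp
  · rw [Int.cast_neg, Int.cast_one]
    exact neg_eq_of_add_eq_zero_left h

theorem B0N_pv (v : Fin 6 → ℤ) : pv (pv v) = v := by
  funext i
  unfold pv
  have h : ∀ i : Fin 6, pn (pn i) = i := by decide
  rw [h i]

theorem B0N_cf {K : Type} [Field K] (hB0R : B0R_stmt) (c : Fin 6 → K) (i : Fin 6) : cf (io6 c) (et6 i) = c i := by
  obtain ⟨h1, h2, h3, -⟩ := hB0R
  have hs : ∀ s : Finset (Fin 6), cf (∑ j ∈ s, c j • ((E C6 (et6 j) : Lm C6 K) + E C6 (pv (et6 j)))) (et6 i) =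
      ∑ j ∈ s, if i = j then c j else 0 := by
    intro s
    induction s using Finset.induction_on with
    | empty => simp
    | insert a s ha ih =>
      rw [Finset.sum_insert ha, Finset.sum_insert ha, cf_add, ih, cf_smul, cf_add, cf_E C6 (h1 a).1.1, cf_E C6 (h1 a).2.1.1]
      have e1 : ¬ et6 i = pv (et6 a) := fun e => h3 a i e.symm
      rw [if_neg e1]
      by_cases h : i = a
      · rw [h, if_pos rfl, if_pos rfl]
        ring
      · rw [if_neg (fun e => h (h2 i a e)), if_neg h]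
        ring
  unfold io6
  rw [hs, Finset.sum_ite_eq]
  simp

theorem B0N_LT {K : Type} [Field K] (hB0R : B0R_stmt) (hSIG : SIG_stmt) (φ : ZMod 2 →+* K) (c : Fin 6 → K) :
    io6 c ∈ LT (RingEquiv.refl K) := by
  obtain ⟨h1, h2, h3, -⟩ := hB0R
  obtain ⟨s1, s2, s3, s4, s5, s6, -⟩ := hSIG K (RingEquiv.refl K) (fun x => rfl)
  change si (RingEquiv.refl K) (io6 c) = io6 c
  have hs : ∀ s : Finset (Fin 6), si (RingEquiv.refl K) (∑ j ∈ s, c j • ((E C6 (et6 j) : Lm C6 K) + E C6 (pv (et6 j)))) =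
      ∑ j ∈ s, c j • ((E C6 (et6 j) : Lm C6 K) + E C6 (pv (et6 j))) := by
    intro s
    induction s using Finset.induction_on with
    | empty =>
      rw [Finset.sum_empty]
      have h := s2 0 0
      rw [zero_smul, map_zero, zero_smul] at h
      exact h
    | insert a s ha ih =>
      rw [Finset.sum_insert ha, s1, ih, s2, s1, s6 _ (h1 a).1.1, s6 _ (h1 a).2.1.1, B0N_sn φ, B0N_sn φ, B0N_pv, one_smul, one_smul]
      rw [add_comm (E C6 (pv (et6 a)) : Lm C6 K) (E C6 (et6 a))]
      rfl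
  exact hs univ

theorem B0N (hB0R : B0R_stmt) (hSIG : SIG_stmt) : B0N_stmt := by
  intro K _ φ g P hP hg
  have h1 : ∀ c : Fin 6 → K, (P.map φ).mulVec c = c := by
    intro c
    have h2 := hP c
    rw [hg _ (B0N_LT hB0R hSIG φ c)] at h2
    funext i
    rw [← B0N_cf hB0R ((P.map φ).mulVec c) i, ← h2, B0N_cf hB0R]
  have h3 : P.map φ = 1 := by
    ext i j
    have h4 := congrFun (h1 (Pi.single j 1)) i
    rw [Matrix.mulVec_single_one] at h4
    rw [Matrix.one_apply]
    change P.map φ i j = _ at h4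
    rw [h4, Pi.single_apply]
  ext i j
  have h5 := congrFun (congrFun h3 i) j
  rw [Matrix.map_apply] at h5
  apply φ.injective
  rw [h5, Matrix.one_apply, Matrix.one_apply]
  split_ifs
  · rw [map_one]
  · rw [map_zero]

end Pool.Agent.EXT
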